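import Pool.Agent.H34.DU.Theory

/-!
# The manifolds `A (P) = R # bd P # K3` and `B (P) = R # bd P # 11 (S^2 × S^2)`
-/

set_option autoImplicit false

namespace Pool.Agent.H34.DU

open Pool.Agent.N180.UD (Wd Pres val Lifts)

namespace FourManifolds

variable (T : FourManifolds)

/-- `R # bd P # K3` -/
def A (P : Pres) : T.N := T.K3 +ᵥ (T.bd P +ᵥ T.R)

/-- `R # bd P # 11 (S^2 × S^2)` -/
def B (P : Pres) : T.N := (11 • T.S) +ᵥ (T.bd P +ᵥ T.R)

variable {T}

/-- All copies of a summand can be reversed. -/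
theorem bar_nsmul (Y : T.M) (n : ℕ) (Z : T.N) : (n • T.bar Y) +ᵥ Z = (n • Y) +ᵥ Z := by
  rw [← map_nsmul, T.bar_vadd]

theorem barT_two (X Y : T.MT) (Z : T.NT) : (X + T.barT Y) +ᵥ Z = (X + Y) +ᵥ Z := by
  rw [add_vadd, add_vadd, T.barT_vadd]

/-- The manifolds `K3 # Z` and `11 (S^2 × S^2) # Z` are homeomorphic. -/
theorem topN_eq (Z : T.N) : T.topN (T.K3 +ᵥ Z) = T.topN ((11 • T.S) +ᵥ Z) := by
  rw [T.topN_vadd, T.topN_vadd, T.freedman_K3, map_nsmul]
  have h1 : T.barT T.E8 + T.barT T.E8 + 3 • T.top T.S =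
      (T.barT T.E8 + 3 • T.top T.S) + T.barT T.E8 := by abel
  have h2 : 11 • T.top T.S = (T.barT T.E8 + 3 • T.top T.S) + T.E8 := by
    have : (T.barT T.E8 + 3 • T.top T.S) + T.E8 = (T.E8 + T.barT T.E8) + 3 • T.top T.S := by abel
    rw [this, T.freedman_E8]
    abel
  rw [h1, h2, barT_two]

theorem S_CP (n : ℕ) : n • T.S + T.CP = (n + 1) • T.CP + n • T.bar T.CP := by
  induction n with
  | zero => simp
  | succ n ih =>
    have : (n + 1) • T.S + T.CP = n • T.S + (T.S + T.CP) := by rw [succ_nsmul]; abel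
    rw [this, T.wall_S]
    have : n • T.S + (2 • T.CP + T.bar T.CP) = (n • T.S + T.CP) + (T.CP + T.bar T.CP) := by
      rw [two_nsmul]; abel
    rw [this, ih, succ_nsmul (T.CP) (n + 1), succ_nsmul (T.bar T.CP) n]
    abel

/-- The manifolds `K3 # CP^2 # Z` and `11 (S^2 × S^2) # CP^2 # Z` are diffeomorphic. -/
theorem CP_eq (Z : T.N) : T.CP +ᵥ (T.K3 +ᵥ Z) = T.CP +ᵥ ((11 • T.S) +ᵥ Z) := by
  rw [← add_vadd, ← add_vadd]
  have h1 : T.CP + T.K3 = 4 • T.CP + 19 • T.bar T.CP := by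
    rw [add_comm, T.mandelbaum_moishezon]
  have h2 : T.CP + 11 • T.S = 12 • T.CP + 11 • T.bar T.CP := by
    rw [add_comm, S_CP 11]
  rw [h1, h2, add_vadd, add_vadd, bar_nsmul, bar_nsmul, ← add_vadd, ← add_vadd, ← add_nsmul,
    ← add_nsmul]

/-- The orientation coverings of `K3 # Z` and `11 (S^2 × S^2) # Z` are diffeomorphic. -/
theorem cov_eq (Z : T.N) : T.cov (T.K3 +ᵥ Z) = T.cov ((11 • T.S) +ᵥ Z) := by
  rw [T.cov_vadd, T.cov_vadd, T.double_K3, map_nsmul, T.bar_S, ← add_nsmul]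

/-- If the relator is trivial the two manifolds are diffeomorphic. -/
theorem A_eq_B {P : Pres} {w : Wd} (hlab : ∀ r ∈ P.2, r.2 = false) (h : val P w = 1) :
    T.A (P.1, P.2 ++ [(w, true)]) = T.B (P.1, P.2 ++ [(w, true)]) := by
  unfold A B
  rw [T.wall_surgery P w hlab h]
  have e : ∀ X : T.M, X +ᵥ ((T.bd P + (T.CP + T.bar T.CP)) +ᵥ T.R) =
      T.CP +ᵥ (X +ᵥ ((T.bd P + T.bar T.CP) +ᵥ T.R)) := by
    intro X
    rw [← add_vadd, ← add_vadd, ← add_vadd]
    congr 1
    abel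
  rw [e, e, CP_eq]

/-- The K3 surface is not zero in the bordism group over the wedge. -/
theorem k3_ne (P : Pres) : T.jP P (T.inP P T.k3) ≠ 0 := by
  intro h
  obtain ⟨y, hy, hz⟩ := T.mayer_vietoris P (T.inP P T.k3) 0 (by rw [h, map_zero, add_zero])
  have h1 : T.sgn y = -16 := by
    rw [← T.sgnP_inP P, ← hy, T.sgnP_inP, T.sgn_k3]
  obtain ⟨v, hv⟩ := T.inC_ker y (by rw [eq_comm, neg_eq_zero] at hz; exact hz)
  obtain ⟨k, hk⟩ := T.rochlin v
  rw [hv, map_add, hk] at h1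
  omega

/-- In the case of the property `Lifts` the two manifolds are not even diffeomorphic after the
connected sum with any simply connected spin manifold. -/
theorem A_ne_B {P : Pres} (hP : Lifts P) {Y : T.M} {y : T.Om} (hY : T.SC Y y) :
    Y +ᵥ T.A P ≠ Y +ᵥ T.B P := by
  intro h
  have e1 : T.cls P (Y +ᵥ T.A P) = {T.jP P (T.inP P T.k3) + T.jP P (T.inP P y)} := by
    have : Y +ᵥ T.A P = Y +ᵥ ((T.K3 + T.bd P) +ᵥ T.R) := by
      unfold A
      rw [← add_vadd T.K3]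
    rw [this, T.cls_add P _ _ _ hY, add_vadd, T.cls_add P _ _ _ T.sc_K3, T.cls_bd P hP]
    simp
  have hS : ∀ (n : ℕ) (X : T.M), T.cls P ((n • T.S) +ᵥ (X +ᵥ T.R)) = T.cls P (X +ᵥ T.R) := by
    intro n
    induction n with
    | zero => intro X; rw [zero_nsmul, zero_vadd]
    | succ n ih =>
      intro X
      have e : ((n + 1) • T.S) +ᵥ (X +ᵥ T.R) = T.S +ᵥ ((n • T.S + X) +ᵥ T.R) := by
        rw [← add_vadd, ← add_vadd, succ_nsmul]
        congr 1
        abel
      rw [e, T.cls_add P _ _ _ T.sc_S, map_zero, map_zero]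
      simp only [add_zero, Set.image_id']
      rw [add_vadd, ih]
  have e2 : T.cls P (Y +ᵥ T.B P) = {T.jP P (T.inP P y)} := by
    have : Y +ᵥ T.B P = Y +ᵥ ((11 • T.S + T.bd P) +ᵥ T.R) := by
      unfold B
      rw [← add_vadd (11 • T.S)]
    rw [this, T.cls_add P _ _ _ hY, add_vadd, hS, T.cls_bd P hP]
    simp
  rw [h, e2] at e1
  have e3 := Set.singleton_injective e1
  exact k3_ne P (add_eq_right.1 e3.symm)

theorem chi_nS (n : ℕ) (X : T.M) : T.chiM (n • T.S + X) = 2 * n + T.chiM X := by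
  induction n generalizing X with
  | zero => simp
  | succ n ih =>
    rw [succ_nsmul, add_assoc, ih, T.chiM_add, T.chi_S]
    push_cast
    ring

/-- The Euler characteristics. -/
theorem chi_A (P : Pres) : T.chi (T.A P) = 2 * (P.2.length - P.1) + 22 + T.chi T.R := by
  unfold A
  rw [T.chi_vadd, T.chi_vadd, T.chi_K3, T.chi_bd]
  ring

theorem chi_B (P : Pres) : T.chi (T.B P) = 2 * (P.2.length - P.1) + 22 + T.chi T.R := by
  unfold B
  rw [← add_vadd, T.chi_vadd, chi_nS, T.chi_bd]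
  push_cast
  ring

/-- `Z` and `Z'` are homeomorphic, have diffeomorphic orientation coverings and become
diffeomorphic after the connected sum with one complex projective plane. -/
structure Close (Z Z' : T.N) : Prop where
  top : T.topN Z = T.topN Z'
  cov : T.cov Z = T.cov Z'
  blowup : T.CP +ᵥ Z = T.CP +ᵥ Z'

theorem close (P : Pres) : Close (T.A P) (T.B P) := ⟨topN_eq _, cov_eq _, CP_eq _⟩

/-- `Z` and `Z'` become diffeomorphic after the connected sum with some closed simply connected spin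
manifold (the same one), for example with a number of copies of `S^2 × S^2`. -/
def Stably (Z Z' : T.N) : Prop := ∃ (Y : T.M) (y : T.Om), T.SC Y y ∧ Y +ᵥ Z = Y +ᵥ Z'

theorem sc_nS (k : ℕ) : T.SC (k • T.S) 0 := by
  induction k with
  | zero => rw [zero_nsmul]; exact T.sc_zero
  | succ k ih =>
    have := T.sc_add _ _ _ _ ih T.sc_S
    rwa [add_zero, ← succ_nsmul] at this

theorem stably_of_eq {Z Z' : T.N} (h : Z = Z') : Stably Z Z' := ⟨0, 0, T.sc_zero, by rw [h]⟩

theorem Stably.symm {Z Z' : T.N} (h : Stably Z Z') : Stably Z' Z := by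
  obtain ⟨Y, y, h1, h2⟩ := h
  exact ⟨Y, y, h1, h2.symm⟩

end FourManifolds

end Pool.Agent.H34.DU
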