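import Mathlib
import Pool.Graph.R_seed8.Y524H.WP2
import Pool.Graph.R_pool_sql_team_seeded_63374d34.N180.UD.Wp

/-!
# The Novikov-Boone theorem, with the halting problem

Adapted from the library (`Pool.Agent.Helper270.WP`, `Pool.Agent.Y524H.WP2`, `Pool.Agent.N180.UD.Wp`),
where the conclusion is that the word problem is not computable.
-/

set_option autoImplicit false

namespace Pool.Agent.H34.DU

section Sys

open Turing Relation Pool.Agent.Helper270.WPSource
open Turing.PartrecToTM2 (trNat trList trNum trPosNum)

/-- A fixed finite counter machine which computes the halting problem. -/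
theorem exists_sys_halt : ∃ (Q : Type) (_ : Finite Q) (M : Sys Q Bool) (q0 : Q) (N : ℕ → ℕ),
    2 ≤ M.B ∧ (∀ q r j, M.nxt q r ≠ none → 0 < M.a q r j) ∧
    Computable N ∧ ∀ n, M.Halts (some q0) (ini (N n)) ↔ (u n).Dom := by
  classical
  obtain ⟨Λ, i1, i2, M, hM⟩ := exists_machine
  have fK : Finite PartrecToTM2.K' := by
    refine Finite.of_injective (fun k : PartrecToTM2.K' => match k with
      | .main => (0 : Fin 4) | .rev => 1 | .aux => 2 | .stack => 3) ?_
    intro a b h
    cases a <;> cases b <;> simp_all
  have fG : Finite (TM2to1.Γ' PartrecToTM2.K' (fun _ => PartrecToTM2.Γ')) :=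
    inferInstanceAs (Finite (Bool × (PartrecToTM2.K' → Option PartrecToTM2.Γ')))
  let _ : Fintype (TM2to1.Γ' PartrecToTM2.K' (fun _ => PartrecToTM2.Γ')) := Fintype.ofFinite _
  let N : ℕ → ℕ := fun n => enc (sym true .cons :: (trNat n).reverse.map (sym false))
  refine ⟨Λ, i2, sys M, default, N, ?_, sys_pos M, ?_, ?_⟩
  · change 2 ≤ bas _
    have : 0 < Fintype.card (TM2to1.Γ' PartrecToTM2.K' (fun _ => PartrecToTM2.Γ')) :=
      Fintype.card_pos
    unfold bas
    omega
  · have h1 := digits_computable (fun a => kap (sym false a))
    have h2 : Computable (fun n : ℕ => ((trNat n).map (fun a => kap (sym false a))).reverse) :=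
      Primrec.list_reverse.to_comp.comp h1
    have h3 := (foldr_computable
      (bas (TM2to1.Γ' PartrecToTM2.K' (fun _ => PartrecToTM2.Γ')))).comp h2
    have h4 : Computable (fun x : ℕ => kap (sym true .cons) +
        (bas (TM2to1.Γ' PartrecToTM2.K' (fun _ => PartrecToTM2.Γ'))) * x) :=
      (Primrec.nat_add.comp (Primrec.const _)
        (Primrec.nat_mul.comp (Primrec.const _) Primrec.id)).to_comp
    refine (h4.comp h3).of_eq ?_
    intro n
    have e : ∀ l : List PartrecToTM2.Γ', enc (l.map (sym false)) =
        (l.map (fun a => kap (sym false a))).foldr (fun d acc => d +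
          (bas (TM2to1.Γ' PartrecToTM2.K' (fun _ => PartrecToTM2.Γ'))) * acc) 0 := by
      intro l
      induction l with
      | nil => rfl
      | cons a l ih =>
        simp only [List.map_cons, enc, List.foldr_cons, ih]
    simp only [N, enc]
    rw [e, List.map_reverse]
  · intro n
    rw [← hM n]
    apply halts_iff
    constructor
    · have := rep_enc (sym true .cons :: (trNat n).reverse.map (sym false))
      have e : (Tape.mk₁ (sym true PartrecToTM2.Γ'.cons :: (trNat n).reverse.map
          (sym false))).right₀ = ListBlank.mk (sym true .cons ::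
            (trNat n).reverse.map (sym false)) := by
        unfold Tape.mk₁ Tape.mk₂
        rw [Tape.mk'_right₀]
      simp only [TM0.init, e]
      exact this
    · exact rep_zero


end Sys

section WP

open Pool.Agent.Helper270.WPA Pool.Agent.Helper270.WP Pool.Agent.Helper270.WPSource

/-- A finitely presented group whose word problem computes the halting problem. -/
theorem word_problem_halt : ∃ (m : ℕ) (R : Finset (FreeGroup (Fin m))) (W : ℕ → List (Fin m × Bool)),
    Computable W ∧ ∀ n, FreeGroup.mk (W n) ∈
      Subgroup.normalClosure (R : Set (FreeGroup (Fin m))) ↔ (u n).Dom := by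
  classical
  obtain ⟨Q, hQ, M, q0, N, hB, hpos, hN, hu⟩ := exists_sys_halt
  have : Finite (Option Q × (Bool → Fin M.B)) := inferInstance
  have : Finite (Gen (Option Q) (Option Q × (Bool → Fin M.B))) :=
    Finite.of_equiv _ (genEquiv _ _).symm
  obtain ⟨m, ⟨e⟩⟩ := Finite.exists_equiv_fin (Gen (Option Q) (Option Q × (Bool → Fin M.B)))
  let D := mrules M hpos
  let E := FreeGroup.freeGroupCongr e
  let R' : Set (FreeGroup (Fin m)) := E '' rels D none
  have hR' : R'.Finite := (rels_finite D none).image _
  refine ⟨m, hR'.toFinset, fun n => twl (e .k) (e (.t (some q0))) (e (.x true)) (N n),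
    twl_computable _ _ _ N hN, ?_⟩
  intro n
  rw [← hu n]
  have h1 : M.Halts (some q0) (ini (N n)) ↔ Acc D none (some q0) (toV (ini (N n))) :=
    ⟨acc_of_halts M hpos hB, fun h => halts_of_acc M hpos h _ rfl⟩
  rw [h1, ← mem_normalClosure_iff D none (acc_forward M hpos)]
  have h2 : FreeGroup.mk (twl (e .k) (e (.t (some q0))) (e (.x true)) (N n)) =
      E (tw (some q0) (toV (ini (N n)))) := by
    rw [mk_twl, tw, Tw, Xw]
    simp only [map_mul, map_inv, map_zpow, gk, gt, gx, E, FreeGroup.freeGroupCongr_apply,
      FreeGroup.map.of, toV, ini]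
    simp
  rw [h2]
  have h3 : Subgroup.normalClosure ((hR'.toFinset : Finset _) : Set (FreeGroup (Fin m))) =
      (Subgroup.normalClosure (rels D none)).map E.toMonoidHom := by
    rw [Set.Finite.coe_toFinset]
    exact (Subgroup.map_normalClosure _ E.toMonoidHom E.surjective).symm
  rw [h3]
  constructor
  · rintro ⟨y, hy, hyE⟩
    have := E.injective hyE
    rwa [this] at hy
  · intro h
    exact ⟨_, h, rfl⟩


end WP

section Two

open Pool.Agent.Y524H Pool.Agent.Helper270.WPSource

theorem word_problem_two_halt : ∃ (rl : List (List (Fin 2 × Bool))) (W : ℕ → List (Fin 2 × Bool)),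
    Computable W ∧ ∀ n, FreeGroup.mk (W n) ∈
      Subgroup.normalClosure {x : FreeGroup (Fin 2) | ∃ r ∈ rl, x = FreeGroup.mk r} ↔ (u n).Dom := by
  obtain ⟨m, R, W, hW, hn⟩ := word_problem_halt
  refine ⟨R.toList.map fun r => sub r.toWord, fun n => sub (W n), sub_computable.comp hW, ?_⟩
  intro n
  rw [← hn n]
  let V : FreeGroup (Fin m) →* FreeGroup (Fin 2) :=
    FreeGroup.lift (fun i : Fin m => FreeGroup.mk (Vw i.val))
  have hset : {x : FreeGroup (Fin 2) | ∃ r ∈ R.toList.map (fun r => sub r.toWord),
      x = FreeGroup.mk r} = V '' (R : Set (FreeGroup (Fin m))) := by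
    ext x
    simp only [Set.mem_ofPred_eq, List.mem_map, Finset.mem_toList, Set.mem_image, Finset.mem_coe]
    constructor
    · rintro ⟨_, ⟨r, hr, rfl⟩, rfl⟩
      refine ⟨r, hr, ?_⟩
      rw [mk_sub, FreeGroup.mk_toWord]
    · rintro ⟨r, hr, rfl⟩
      refine ⟨_, ⟨r, hr, rfl⟩, ?_⟩
      rw [mk_sub, FreeGroup.mk_toWord]
  rw [hset, mk_sub]
  change V (FreeGroup.mk (W n)) ∈ _ ↔ _
  constructor
  · intro h
    obtain ⟨P, _, u, v, ι, hι, huv⟩ := two_gen m
      (fun i => (PresentedGroup.of i : PresentedGroup (R : Set (FreeGroup (Fin m)))))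
    let Ψ : FreeGroup (Fin 2) →* P := FreeGroup.lift ![u, v]
    have hΨ : Ψ.comp V = ι.comp (PresentedGroup.mk (R : Set (FreeGroup (Fin m)))) := by
      apply FreeGroup.ext_hom
      intro i
      simp only [MonoidHom.comp_apply, V, FreeGroup.lift_apply_of, mk_Vw]
      have := huv i
      simp only [Ψ, map_mul, map_inv, map_pow, FreeGroup.lift_apply_of, Matrix.cons_val_zero,
        Matrix.cons_val_one]
      exact this
    have hker : Subgroup.normalClosure (V '' (R : Set (FreeGroup (Fin m)))) ≤ Ψ.ker := by
      apply Subgroup.normalClosure_le_normal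
      rintro _ ⟨r, hr, rfl⟩
      have := DFunLike.congr_fun hΨ r
      rw [MonoidHom.comp_apply, MonoidHom.comp_apply, PresentedGroup.one_of_mem hr, map_one] at this
      exact this
    have h1 := hker h
    have h2 := DFunLike.congr_fun hΨ (FreeGroup.mk (W n))
    rw [MonoidHom.comp_apply, MonoidHom.comp_apply, MonoidHom.mem_ker.1 h1] at h2
    have h3 := hι (h2.symm.trans (map_one ι).symm)
    exact (QuotientGroup.eq_one_iff _).1 h3
  · intro h
    have := Subgroup.mem_map_of_mem V h
    have h2 : (Subgroup.normalClosure (R : Set (FreeGroup (Fin m)))).map V ≤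
        Subgroup.normalClosure (V '' (R : Set (FreeGroup (Fin m)))) := by
      rw [Subgroup.map_le_iff_le_comap]
      apply Subgroup.normalClosure_le_normal
      intro r hr
      exact Subgroup.subset_normalClosure ⟨r, hr, rfl⟩
    exact h2 this


end Two

section Pres

open Pool.Agent.N180.UD Pool.Agent.Helper270.WPSource

/-- There is a finite presentation whose word problem computes the halting problem (all labels are
zero). -/
theorem exists_halting : ∃ (P : Pres) (W : ℕ → Wd), (∀ r ∈ P.2, r.2 = false) ∧ Computable W ∧
    ∀ n, val P (W n) = 1 ↔ (u n).Dom := by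
  obtain ⟨rl, W, hW, hn⟩ := word_problem_two_halt
  refine ⟨(2, rl.map fun r => (up r, false)), fun n => up (W n), ?_, computable_up.comp hW, ?_⟩
  · intro r hr
    obtain ⟨q, -, rfl⟩ := List.mem_map.1 hr
    rfl
  · have key : ∀ w : List (Fin 2 × Bool),
        val (2, rl.map fun r => (up r, false)) (up w) = 1 ↔
        FreeGroup.mk w ∈ Subgroup.normalClosure
          {x : FreeGroup (Fin 2) | ∃ r ∈ rl, x = FreeGroup.mk r} := by
      intro w
      set P : Pres := (2, rl.map fun r => (up r, false)) with hP
      set R : Set (FreeGroup (Fin 2)) := {x | ∃ r ∈ rl, x = FreeGroup.mk r} with hR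
      constructor
      · intro h
        -- the homomorphism to the quotient
        let q : FreeGroup (Fin 2) →* FreeGroup (Fin 2) ⧸ Subgroup.normalClosure R :=
          QuotientGroup.mk' _
        let e : ℕ → FreeGroup (Fin 2) ⧸ Subgroup.normalClosure R := fun k =>
          if hk : k < 2 then q (FreeGroup.of ⟨k, hk⟩) else 1
        have he : (FreeGroup.lift fun i : Fin 2 => e i.val) = q := by
          ext i
          rw [FreeGroup.lift_apply_of]
          exact dif_pos i.isLt
        have hrel : ∀ x ∈ relSet P, FreeGroup.lift e x = 1 := by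
          rintro x (⟨r, hr, rfl⟩ | ⟨k, hk, rfl⟩)
          · obtain ⟨r', hr', rfl⟩ := List.mem_map.1 hr
            simp only
            rw [lift_up, he]
            exact (QuotientGroup.eq_one_iff _).2
              (Subgroup.subset_normalClosure ⟨r', hr', rfl⟩)
          · have hk' : 2 ≤ k := hk
            rw [FreeGroup.lift_apply_of]
            exact dif_neg (not_lt.2 hk')
        have h1 : PresentedGroup.toGroup hrel (val P (up w)) = 1 := by rw [h, map_one]
        have h2 : PresentedGroup.toGroup hrel (val P (up w)) = FreeGroup.lift e (wd (up w)) := rfl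
        rw [h2, lift_up, he] at h1
        exact (QuotientGroup.eq_one_iff _).1 h1
      · intro h
        have hle : Subgroup.normalClosure R ≤
            (FreeGroup.lift fun i : Fin 2 => (PresentedGroup.of i.val : Grp P)).ker := by
          refine Subgroup.normalClosure_le_normal ?_
          rintro x ⟨r, hr, rfl⟩
          change FreeGroup.lift (fun i : Fin 2 => (PresentedGroup.of i.val : Grp P))
            (FreeGroup.mk r) = 1
          rw [← lift_up (fun k => (PresentedGroup.of k : Grp P))]
          have h3 : FreeGroup.lift (fun k => (PresentedGroup.of k : Grp P)) (wd (up r)) =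
              PresentedGroup.mk (relSet P) (wd (up r)) := by
            have : FreeGroup.lift (fun k => (PresentedGroup.of k : Grp P)) =
                PresentedGroup.mk (relSet P) := by
              ext k
              simp [PresentedGroup.of]
            rw [this]
          rw [h3]
          refine (QuotientGroup.eq_one_iff _).2 (Subgroup.subset_normalClosure (Or.inl ?_))
          exact ⟨(up r, false), List.mem_map.2 ⟨r, hr, rfl⟩, rfl⟩
        have h4 := hle h
        change FreeGroup.lift (fun i : Fin 2 => (PresentedGroup.of i.val : Grp P))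
            (FreeGroup.mk w) = 1 at h4
        rw [← lift_up (fun k => (PresentedGroup.of k : Grp P))] at h4
        have h5 : FreeGroup.lift (fun k => (PresentedGroup.of k : Grp P)) =
            PresentedGroup.mk (relSet P) := by
          ext k
          simp [PresentedGroup.of]
        rw [h5] at h4
        exact h4
    intro n
    rw [← hn n]
    exact key (W n)


end Pres

end Pool.Agent.H34.DU
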