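import Pool.Agent.H34.DU.Calc
import Pool.Agent.H34.DU.Halt
import Pool.Graph.R_pool_sql_team_seeded_63374d34.N212.UD.Grp

/-!
# Subdivisions, and the reduction of the halting problem
-/

set_option autoImplicit false

namespace Pool.Agent.H34.DU

open Set Pool.Agent.Q324.SC Pool.Agent.Q324.SC.Tri
open Pool.Agent.N180.UD (Wd Pres val Lifts ext ext0 newRel)
open Pool.Agent.Helper270.WPSource (u)

/-! ### Subdivisions -/

lemma valid_iff (K : List (List ℕ)) : Valid K ↔ IsComplex K :=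
  ⟨fun h => ⟨h.ne, h.nodup, h.sorted, h.len, h.seg⟩,
    fun h => ⟨h.ne, h.nodup, h.increasing, h.five, h.vertices⟩⟩

lemma PLManifold.transport {X Y : Set (ℕ → ℝ)} {f g : (ℕ → ℝ) → (ℕ → ℝ)} (h : IsPL X Y f g)
    (hX : PLManifold X) : PLManifold Y := by
  intro y hy
  obtain ⟨O, O', hO, hO', hx, hU⟩ := hX (g y) (h.maps' hy)
  obtain ⟨O2, hO2, h2⟩ := (continuousOn_iff'.1 h.cont') O hO
  have e : ∀ z ∈ Y, (z ∈ O2 ↔ g z ∈ O) := by
    intro z hz
    have : z ∈ g ⁻¹' O ∩ Y ↔ z ∈ O2 ∩ Y := by rw [h2]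
    simp only [mem_inter_iff, hz, and_true, mem_preimage] at this
    exact this.symm
  refine ⟨O2, O', hO2, hO', (e y hy).2 hx, PLHomeo.trans (Y := X ∩ O) ⟨g, f, ?_⟩ hU⟩
  refine ⟨?_, ?_, ?_, ?_, ?_, ?_, ?_, ?_⟩
  · intro z hz
    exact ⟨h.maps' hz.1, (e z hz.1).1 hz.2⟩
  · intro z hz
    refine ⟨h.maps hz.1, (e _ (h.maps hz.1)).2 ?_⟩
    rw [h.left z hz.1]
    exact hz.2
  · intro z hz
    exact h.right z hz.1
  · intro z hz
    exact h.left z hz.1
  · exact h.cont'.mono inter_subset_left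
  · exact h.cont.mono inter_subset_left
  · exact h.pa'.mono inter_subset_left
  · exact h.pa.mono inter_subset_left

lemma IsPL.connected {X Y : Set (ℕ → ℝ)} {f g : (ℕ → ℝ) → (ℕ → ℝ)} (h : IsPL X Y f g)
    (hX : IsConnected X) : IsConnected Y := by
  have e : Y = f '' X := by
    ext y
    constructor
    · intro hy
      exact ⟨g y, h.maps' hy, h.right y hy⟩
    · rintro ⟨x, hx, rfl⟩
      exact h.maps hx
  rw [e]
  exact hX.image f h.cont

lemma closed_sub {K : List (List ℕ)} {c : ℕ} (hc : c < K.length) (h : IsClosedManifold K) :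
    IsClosedManifold (sub K c) := by
  have hK := (valid_iff K).2 h.complex
  exact ⟨(valid_iff _).1 (sub_valid hK hc), PLManifold.transport (sub_isPL hK hc).symm h.manifold,
    IsPL.connected (sub_isPL hK hc).symm h.connected⟩

lemma pl_sub {K : List (List ℕ)} {c : ℕ} (hK : Valid K) (hc : c < K.length) :
    PLHomeo (Space K) (Space (sub K c)) := ⟨_, _, (sub_isPL hK hc).symm⟩

lemma pl_sub_iff {K L : List (List ℕ)} {c : ℕ} (hK : Valid K) (hc : c < K.length) :
    PLHomeo (Space (sub K c)) (Space L) ↔ PLHomeo (Space K) (Space L) :=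
  ⟨fun h => PLHomeo.trans (pl_sub hK hc) h, fun h => PLHomeo.trans (pl_sub hK hc).symm h⟩

lemma pl_comm {X Y : Set (ℕ → ℝ)} : PLHomeo X Y ↔ PLHomeo Y X := ⟨PLHomeo.symm, PLHomeo.symm⟩

lemma homeo_of_pl {X Y : Set (ℕ → ℝ)} (h : PLHomeo X Y) : Nonempty (X ≃ₜ Y) := by
  obtain ⟨f, g, h⟩ := h
  refine ⟨⟨⟨fun x => ⟨f x, h.maps x.2⟩, fun y => ⟨g y, h.maps' y.2⟩, ?_, ?_⟩, ?_, ?_⟩⟩
  · intro x
    exact Subtype.ext (h.left _ x.2)
  · intro y
    exact Subtype.ext (h.right _ y.2)
  · exact (continuousOn_iff_continuous_domRestrict.1 h.cont).subtype_mk _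
  · exact (continuousOn_iff_continuous_domRestrict.1 h.cont').subtype_mk _

/-! ### The special pairs -/

variable (T : FourManifolds)

/-- The complexes `K` and `L` triangulate closed connected manifolds of Euler characteristic `c`
which are homeomorphic, have diffeomorphic orientation coverings, become diffeomorphic after the
connected sum with one complex projective plane, and are either diffeomorphic or not even
diffeomorphic after the connected sum with any closed simply connected spin manifold. -/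
def Special (c : ℤ) (K L : List (List ℕ)) : Prop :=
  IsClosedManifold K ∧ IsClosedManifold L ∧ Nonempty (Space K ≃ₜ Space L) ∧
    ∃ Z Z' : T.N, T.Tri K Z ∧ T.Tri L Z' ∧ T.chi Z = c ∧ T.chi Z' = c ∧
      FourManifolds.Close Z Z' ∧ (Z = Z' ∨ ¬ FourManifolds.Stably Z Z')

variable {T}

lemma Special.symm {c : ℤ} {K L : List (List ℕ)} (h : Special T c K L) : Special T c L K := by
  obtain ⟨h1, h2, ⟨e⟩, Z, Z', h3, h4, h7, h8, h5, h6⟩ := h
  refine ⟨h2, h1, ⟨e.symm⟩, Z', Z, h4, h3, h8, h7, ⟨h5.top.symm, h5.cov.symm, h5.blowup.symm⟩, ?_⟩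
  rcases h6 with h6 | h6
  · exact Or.inl h6.symm
  · exact Or.inr fun h => h6 h.symm

lemma special_sub {e : ℤ} {K L : List (List ℕ)} {c : ℕ} (hc : c < K.length)
    (h : Special T e K L) : Special T e (sub K c) L := by
  obtain ⟨h1, h2, ⟨e⟩, Z, Z', h3, h4, h5⟩ := h
  have hK := (valid_iff K).2 h1.complex
  have h6 := closed_sub hc h1
  obtain ⟨e'⟩ := homeo_of_pl (pl_sub hK hc)
  exact ⟨h6, h2, ⟨e'.symm.trans e⟩, Z, Z', T.tri_inv h3 h6 (pl_sub hK hc), h4, h5⟩

lemma pl_iff {K L : List (List ℕ)} {Z Z' : T.N} (h : T.Tri K Z) (h' : T.Tri L Z') :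
    PLHomeo (Space K) (Space L) ↔ Z = Z' := by
  constructor
  · intro e
    exact T.tri_unique (T.tri_inv h (T.tri_closed h') e) h'
  · rintro rfl
    exact T.tri_pl h h'

/-- The family of pairs. -/
theorem family (T : FourManifolds) : ∃ (c : ℤ) (g g' : ℕ → List (List ℕ)) (Z Z' : ℕ → T.N),
    Computable g ∧ Computable g' ∧ ∀ n, T.Tri (g n) (Z n) ∧ T.Tri (g' n) (Z' n) ∧
      T.chi (Z n) = c ∧ T.chi (Z' n) = c ∧
      Nonempty (Space (g n) ≃ₜ Space (g' n)) ∧ FourManifolds.Close (Z n) (Z' n) ∧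
      ((u n).Dom → Z n = Z' n) ∧ (¬ (u n).Dom → ¬ FourManifolds.Stably (Z n) (Z' n)) := by
  obtain ⟨P, W, hlab, hW, hu⟩ := exists_halting
  obtain ⟨g, hg, hgT⟩ := T.tri_comp T.K3
  obtain ⟨g', hg', hgT'⟩ := T.tri_comp (11 • T.S)
  have hlab0 : ∀ r ∈ (ext0 P).2, r.2 = false := by
    intro r hr
    obtain ⟨q, hq, rfl⟩ := List.mem_map.1 hr
    exact hlab q hq
  have hc := Pool.Agent.N212.UD.computable_ext P
  have hchi : ∀ w, (2 * (((ext P w).2.length : ℤ) - ((ext P w).1 : ℕ)) + 22 + T.chi T.R) =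
      2 * (((P.2.length + 1 : ℕ) : ℤ) - ((P.1 + 2 : ℕ) : ℤ)) + 22 + T.chi T.R := by
    intro w
    simp [Pool.Agent.N180.UD.ext, ext0]
  refine ⟨2 * (((P.2.length + 1 : ℕ) : ℤ) - ((P.1 + 2 : ℕ) : ℤ)) + 22 + T.chi T.R,
    fun n => g (ext P (W n)), fun n => g' (ext P (W n)), fun n => T.A (ext P (W n)),
    fun n => T.B (ext P (W n)), hg.comp (hc.comp hW), hg'.comp (hc.comp hW), fun n => ?_⟩
  refine ⟨hgT _, hgT' _, by rw [FourManifolds.chi_A, hchi], by rw [FourManifolds.chi_B, hchi],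
    T.tri_top (hgT _) (hgT' _) (FourManifolds.topN_eq _),
    FourManifolds.close _, fun h => ?_, fun h => ?_⟩
  · exact FourManifolds.A_eq_B hlab0 (Pool.Agent.N212.UD.val_newRel P (W n) ((hu n).2 h))
  · rintro ⟨Y, y, hY, hk⟩
    have h1 : Lifts (ext P (W n)) :=
      (Pool.Agent.N212.UD.lifts_ext_iff P hlab (W n)).2 fun h2 => h ((hu n).1 h2)
    exact FourManifolds.A_ne_B h1 hY hk

/-- Every recursively enumerable predicate is reduced to the domain of `u`. -/
theorem reduce {α : Type} [Primcodable α] {p : α → Prop} (hp : REPred p) :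
    ∃ f : α → ℕ, Computable f ∧ ∀ a, p a ↔ (u (f a)).Dom := by
  obtain ⟨c, hc⟩ := Nat.Partrec.Code.exists_code.1
    (Partrec.nat_iff.1 (show Partrec (fun n : ℕ =>
      (Part.ofOption (Encodable.decode (α := α) n.unpair.1)).bind fun a =>
        (Part.assert (p a) fun _ => Part.some ()).map fun _ => (0 : ℕ)) from by
      refine Partrec.bind ?_ ?_
      · exact Computable.ofOption (Computable.decode.comp (Computable.fst.comp Computable.unpair))
      · refine Partrec.map ?_ (Computable.const 0)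
        exact hp.comp Computable.snd))
  refine ⟨fun a => Encodable.encode (Nat.Partrec.Code.curry c (Encodable.encode a)), ?_, ?_⟩
  · exact Computable.encode.comp
      ((Nat.Partrec.Code.primrec₂_curry.to_comp).comp (Computable.const c) Computable.encode)
  · intro a
    unfold u
    rw [Denumerable.ofNat_encode, Nat.Partrec.Code.eval_curry, hc]
    simp [Part.assert]

end Pool.Agent.H34.DU
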