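import Mathlib
import Pool.Agent.H34.RO.Gen
import Pool.Agent.H34.RO.Bits
import Pool.Agent.H34.DU.Red

/-!
# Randomised algorithms and short programs with few failures, for a class of pairs of complexes
-/

set_option autoImplicit false

namespace Pool.Agent.H34.DU

open Set Pool.Agent.Q324.SC Pool.Agent.Q324.SC.Tri Pool.Agent.Q287.BA.Tri Pool.Agent.H34.RO

/-- The pairs (of sets of facets) with `N` and `N'` facets in the class `Pr` for which `f`, applied
to some lists of the facets, does not halt or gives the wrong answer to the question whether the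
complexes are piecewise linearly homeomorphic. -/
def Exceptions (Pr : List (List ℕ) → List (List ℕ) → Prop)
    (f : List (List ℕ) × List (List ℕ) →. Bool) (N N' : ℕ) :
    Set (Finset (List ℕ) × Finset (List ℕ)) :=
  {S | ∃ K L, Pr K L ∧ K.length = N ∧ L.length = N' ∧ K.toFinset = S.1 ∧ L.toFinset = S.2 ∧
    ¬ ∃ b ∈ f (K, L), (b = true ↔ PLHomeo (Space K) (Space L))}

/-- `f` has few failures with `N` and `N'` facets. -/
def Good (Pr : List (List ℕ) → List (List ℕ) → Prop) (C : ℕ)
    (f : List (List ℕ) × List (List ℕ) →. Bool) (N N' : ℕ) : Prop :=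
  (Exceptions Pr f N N').encard ≤
    ((C * 3 ^ (N / 4 + N' / 4) * Nat.factorial (N / 4) * Nat.factorial (N' / 4) : ℕ) : ℕ∞)

/-- `f (σ, ·)` is a randomised algorithm, where `σ` is the list of the random bits used so far:
further random bits do not change an output. It need not halt always. -/
def Randomised (f : List Bool × List (List ℕ) × List (List ℕ) →. Bool) : Prop :=
  Partrec f ∧ ∀ σ τ p b, b ∈ f (σ, p) → b ∈ f (σ ++ τ, p)

/-- For all `j` and all `ρ, ρ' < 4` the randomised algorithm `f` has few failures with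
`4 * s j + ρ` and `4 * s j + ρ'` facets, with probability at least `1 / k`. -/
def SucceedsWithProbability (Pr : List (List ℕ) → List (List ℕ) → Prop) (s : ℕ → ℕ) (k C : ℕ)
    (f : List Bool × List (List ℕ) × List (List ℕ) →. Bool) : Prop :=
  ∀ j, ∀ ρ < 4, ∀ ρ' < 4, ∃ l, 2 ^ l ≤ k * {σ : List Bool | σ.length = l ∧
    Good Pr C (fun p => f (σ, p)) (4 * s j + ρ) (4 * s j + ρ')}.ncard

/-- For all `N`, `N'` one of the first `c * (max N N' + 1) ^ 2` programs computes `(N, N')` and has
few failures with `N` and `N'` facets. -/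
def ShortPrograms (Pr : List (List ℕ) → List (List ℕ) → Prop) (c C : ℕ) (size : ℕ →. ℕ × ℕ)
    (f : ℕ × List (List ℕ) × List (List ℕ) →. Bool) : Prop :=
  ∀ N N' : ℕ, ∃ i < c * (max N N' + 1) ^ 2, (N, N') ∈ size i ∧ Good Pr C (fun p => f (i, p)) N N'

/-- The question is decided by an algorithm for the pairs in `Pr`. -/
def Decidable (Pr : List (List ℕ) → List (List ℕ) → Prop) : Prop :=
  ∃ D : List (List ℕ) × List (List ℕ) →. Bool, Partrec D ∧
    ∀ K L, Pr K L → ∃ b ∈ D (K, L), (b = true ↔ PLHomeo (Space K) (Space L))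

/-- A class of pairs which is stable under subdivisions. -/
structure Stable (Pr : List (List ℕ) → List (List ℕ) → Prop) : Prop where
  left : ∀ {K L}, Pr K L → IsComplex K
  symm : ∀ {K L}, Pr K L → Pr L K
  sub : ∀ {K L} {c : ℕ}, c < K.length → Pr K L → Pr (Tri.sub K c) L

variable {Pr : List (List ℕ) → List (List ℕ) → Prop}

lemma bad_le {C N N' : ℕ} {f : List (List ℕ) × List (List ℕ) →. Bool} (h : Good Pr C f N N') :
    (BadP2 f Pr (fun K L => PLHomeo (Space K) (Space L)) N N').encard ≤
      ((bound C N * bound C N' : ℕ) : ℕ∞) := by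
  refine le_trans (Set.encard_le_encard ?_) (le_trans h ?_)
  · rintro S ⟨K, L, h1, h1', h2, h2', h3, h4, h4', h5⟩
    exact ⟨K, L, h3, h2, h2', h4, h4', h5⟩
  · have h1 : C ≤ C * C := Nat.le_mul_self C
    have h2 : C * 3 ^ (N / 4 + N' / 4) * Nat.factorial (N / 4) * Nat.factorial (N' / 4)
        ≤ bound C N * bound C N' := by
      unfold bound
      calc C * 3 ^ (N / 4 + N' / 4) * Nat.factorial (N / 4) * Nat.factorial (N' / 4)
          ≤ (C * C) * 3 ^ (N / 4 + N' / 4) * Nat.factorial (N / 4) * Nat.factorial (N' / 4) :=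
            Nat.mul_le_mul_right _ (Nat.mul_le_mul_right _ (Nat.mul_le_mul_right _ h1))
        _ = _ := by
            rw [pow_add]
            ring
    exact_mod_cast h2

lemma decidable_of (hS : Stable Pr) {D : Cx × Cx →. Bool} (hD : Partrec D)
    (h : ∀ K L, Valid K → Valid L → Pr K L →
      ∃ b, D (K, L) = Part.some b ∧ (b = true ↔ PLHomeo (Space K) (Space L))) : Decidable Pr := by
  refine ⟨D, hD, fun K L h1 => ?_⟩
  obtain ⟨b, hb, hb2⟩ := h K L ((valid_iff K).2 (hS.left h1)) ((valid_iff L).2 (hS.left (hS.symm h1)))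
    h1
  exact ⟨b, Part.eq_some_iff.1 hb, hb2⟩

theorem of_random (hS : Stable Pr) {s : ℕ → ℕ} (hs : Computable s) (hs2 : ∀ j, j ≤ s j) {k C : ℕ}
    {f : List Bool × List (List ℕ) × List (List ℕ) →. Bool}
    (hf : Randomised f) (h : SucceedsWithProbability Pr s k C f) : Decidable Pr := by
  classical
  obtain ⟨D, hD, hD2⟩ := gen k C
    (f := fun x : (ℕ × ℕ) × ((ℕ × ℕ) × Cx × Cx) => f (bits x.1.1 x.1.2, x.2.2))
    (z := fun x : (ℕ × ℕ) × (ℕ × ℕ) => Part.some (s x.2.2, s x.2.2))
    (Pr := Pr) (Q := fun K L => PLHomeo (Space K) (Space L))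
    (hf.1.comp ((bits_primrec.to_comp.comp Computable.fst).pair
      (Computable.snd.comp Computable.snd)))
    (by
      rintro l l' i ⟨_, p⟩ b hl hb
      change b ∈ f (bits l (i % 2 ^ l), p) at hb
      change b ∈ f (bits l' i, p)
      rw [bits_mod l l i le_rfl] at hb
      obtain ⟨τ, hτ⟩ := bits_prefix l l' i hl
      rw [hτ]
      exact hf.2 _ τ p b hb)
    ((hs.comp (Computable.snd.comp Computable.snd)).pair
      (hs.comp (Computable.snd.comp Computable.snd))).partrec
    (fun _ _ _ _ _ _ hb => hb)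
    (fun L K c _ hc h1 => hS.sub hc h1)
    (fun K L c _ hc h1 => hS.symm (hS.sub hc (hS.symm h1)))
    (fun L K c hK hc => pl_sub_iff hK hc)
    (fun K L c hL hc => by rw [pl_comm, pl_sub_iff hL hc, pl_comm])
    (by
      intro r hr M
      obtain ⟨l, hl⟩ := h M (r / 4) (by omega) (r % 4) (by omega)
      refine ⟨l, (Finset.range (2 ^ l)).filter fun i =>
        Good Pr C (fun p => f (bits l i, p)) (4 * s M + r / 4) (4 * s M + r % 4),
        Finset.filter_subset _ _, ?_, ?_⟩
      · refine hl.trans (Nat.mul_le_mul_left _ ?_)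
        refine (Set.ncard_le_ncard (t := ((Finset.image (bits l) ((Finset.range (2 ^ l)).filter
          fun i => Good Pr C (fun p => f (bits l i, p)) (4 * s M + r / 4) (4 * s M + r % 4)) :
            Finset (List Bool)) : Set (List Bool))) ?_ (Finset.finite_toSet _)).trans ?_
        · rintro σ ⟨h1, h2⟩
          obtain ⟨i, hi, hi2⟩ := bits_surj σ
          rw [h1] at hi hi2
          rw [Finset.mem_coe, Finset.mem_image]
          refine ⟨i, ?_, hi2⟩
          rw [Finset.mem_filter, Finset.mem_range, hi2]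
          exact ⟨hi, h2⟩
        · rw [Set.ncard_coe_finset]
          exact Finset.card_image_le
      · intro i hi
        rw [Finset.mem_filter] at hi
        exact ⟨s M, s M, hs2 M, hs2 M, Part.mem_some _, bad_le hi.2⟩)
  exact decidable_of hS hD hD2

theorem of_programs (hS : Stable Pr) {c C : ℕ} {size : ℕ →. ℕ × ℕ}
    {f : ℕ × List (List ℕ) × List (List ℕ) →. Bool} (hs : Partrec size) (hf : Partrec f)
    (h : ShortPrograms Pr c C size f) : Decidable Pr := by
  classical
  have he : Primrec (fun x : ℕ × ℕ => decide (c + 2 * x.2 + 6 ≤ x.1)) := by fun_prop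
  have hm : Primrec (fun x : ℕ × ℕ => x.1 % 2 ^ (c + 2 * x.2 + 6)) := by fun_prop
  have hq : Primrec (fun x : ℕ × ℕ => (x.1 / 4, x.2 / 4)) := by fun_prop
  obtain ⟨D, hD, hD2⟩ := gen (2 ^ (c + 6)) C
    (f := fun x : (ℕ × ℕ) × ((ℕ × ℕ) × Cx × Cx) =>
      cond (decide (c + 2 * x.2.1.2 + 6 ≤ x.1.1))
        (f (x.1.2 % 2 ^ (c + 2 * x.2.1.2 + 6), x.2.2)) Part.none)
    (z := fun x : (ℕ × ℕ) × (ℕ × ℕ) =>
      cond (decide (c + 2 * x.2.2 + 6 ≤ x.1.1))
        ((size (x.1.2 % 2 ^ (c + 2 * x.2.2 + 6))).map fun y => (y.1 / 4, y.2 / 4)) Part.none)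
    (Pr := Pr) (Q := fun K L => PLHomeo (Space K) (Space L))
    (by
      refine Partrec.cond ?_ ?_ Partrec.none
      · exact Computable.comp (f := fun x : ℕ × ℕ => decide (c + 2 * x.2 + 6 ≤ x.1))
          (g := fun x : (ℕ × ℕ) × ((ℕ × ℕ) × Cx × Cx) => (x.1.1, x.2.1.2)) he.to_comp
          ((Computable.fst.comp Computable.fst).pair
            (Computable.snd.comp (Computable.fst.comp Computable.snd)))
      · refine hf.comp (Computable.pair ?_ (Computable.snd.comp Computable.snd))
        exact Computable.comp (f := fun x : ℕ × ℕ => x.1 % 2 ^ (c + 2 * x.2 + 6))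
          (g := fun x : (ℕ × ℕ) × ((ℕ × ℕ) × Cx × Cx) => (x.1.2, x.2.1.2)) hm.to_comp
          ((Computable.snd.comp Computable.fst).pair
            (Computable.snd.comp (Computable.fst.comp Computable.snd))))
    (by
      rintro l l' i ⟨⟨r, M⟩, p⟩ b hl hb
      change b ∈ cond (decide (c + 2 * M + 6 ≤ l)) (f (i % 2 ^ l % 2 ^ (c + 2 * M + 6), p))
        Part.none at hb
      change b ∈ cond (decide (c + 2 * M + 6 ≤ l')) (f (i % 2 ^ (c + 2 * M + 6), p)) Part.none
      by_cases h1 : c + 2 * M + 6 ≤ l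
      · rw [decide_eq_true h1, cond_true, Nat.mod_mod_of_dvd _ (pow_dvd_pow 2 h1)] at hb
        rw [decide_eq_true (h1.trans hl), cond_true]
        exact hb
      · rw [decide_eq_false h1, cond_false] at hb
        exact absurd hb (Part.notMem_none _))
    (by
      refine Partrec.cond ?_ ?_ Partrec.none
      · exact Computable.comp (f := fun x : ℕ × ℕ => decide (c + 2 * x.2 + 6 ≤ x.1))
          (g := fun x : (ℕ × ℕ) × (ℕ × ℕ) => (x.1.1, x.2.2)) he.to_comp
          ((Computable.fst.comp Computable.fst).pair (Computable.snd.comp Computable.snd))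
      · refine Partrec.map (f := fun x : (ℕ × ℕ) × (ℕ × ℕ) =>
          size (x.1.2 % 2 ^ (c + 2 * x.2.2 + 6))) (g := fun _ y => (y.1 / 4, y.2 / 4)) ?_ ?_
        · refine hs.comp ?_
          exact Computable.comp (f := fun x : ℕ × ℕ => x.1 % 2 ^ (c + 2 * x.2 + 6))
            (g := fun x : (ℕ × ℕ) × (ℕ × ℕ) => (x.1.2, x.2.2)) hm.to_comp
            ((Computable.snd.comp Computable.fst).pair (Computable.snd.comp Computable.snd))
        · exact (hq.to_comp.comp Computable.snd))
    (by
      rintro l l' i ⟨r, M⟩ b hl hb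
      change b ∈ cond (decide (c + 2 * M + 6 ≤ l)) ((size (i % 2 ^ l % 2 ^ (c + 2 * M + 6))).map
        fun y => (y.1 / 4, y.2 / 4)) Part.none at hb
      change b ∈ cond (decide (c + 2 * M + 6 ≤ l')) ((size (i % 2 ^ (c + 2 * M + 6))).map
        fun y => (y.1 / 4, y.2 / 4)) Part.none
      by_cases h1 : c + 2 * M + 6 ≤ l
      · rw [decide_eq_true h1, cond_true, Nat.mod_mod_of_dvd _ (pow_dvd_pow 2 h1)] at hb
        rw [decide_eq_true (h1.trans hl), cond_true]
        exact hb
      · rw [decide_eq_false h1, cond_false] at hb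
        exact absurd hb (Part.notMem_none _))
    (fun L K c _ hc h1 => hS.sub hc h1)
    (fun K L c _ hc h1 => hS.symm (hS.sub hc (hS.symm h1)))
    (fun L K c hK hc => pl_sub_iff hK hc)
    (fun K L c hL hc => by rw [pl_comm, pl_sub_iff hL hc, pl_comm])
    (by
      intro r hr M
      have h1 : ∀ q : ℕ × ℕ, ∃ i, q.1 < 2 ^ M → q.2 < 2 ^ M → i < 2 ^ (c + 2 * M + 6) ∧
          (4 * (2 ^ M + q.1) + r / 4, 4 * (2 ^ M + q.2) + r % 4) ∈ size i ∧
          Good Pr C (fun p => f (i, p)) (4 * (2 ^ M + q.1) + r / 4)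
            (4 * (2 ^ M + q.2) + r % 4) := by
        intro q
        obtain ⟨i, hi, hi2, hi3⟩ := h (4 * (2 ^ M + q.1) + r / 4) (4 * (2 ^ M + q.2) + r % 4)
        refine ⟨i, fun h1 h2 => ⟨hi.trans_le ?_, hi2, hi3⟩⟩
        have h3 : max (4 * (2 ^ M + q.1) + r / 4) (4 * (2 ^ M + q.2) + r % 4) + 1 ≤ 8 * 2 ^ M := by
          have h4 : r / 4 ≤ 3 := by omega
          have h5 : r % 4 ≤ 3 := by omega
          have h6 : max (4 * (2 ^ M + q.1) + r / 4) (4 * (2 ^ M + q.2) + r % 4)
              ≤ 8 * 2 ^ M - 1 := max_le (by omega) (by omega)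
          have h7 : 1 ≤ 2 ^ M := Nat.one_le_two_pow
          omega
        calc c * (max (4 * (2 ^ M + q.1) + r / 4) (4 * (2 ^ M + q.2) + r % 4) + 1) ^ 2
            ≤ 2 ^ c * (8 * 2 ^ M) ^ 2 :=
              Nat.mul_le_mul (Nat.lt_two_pow_self).le (Nat.pow_le_pow_left h3 2)
          _ = 2 ^ (c + 2 * M + 6) := by
              rw [pow_add, pow_add, mul_pow, ← pow_mul, Nat.mul_comm M 2]
              ring
      choose p hp using h1
      obtain ⟨B, hB⟩ : ∃ B, B = (Finset.range (2 ^ M)) ×ˢ (Finset.range (2 ^ M)) := ⟨_, rfl⟩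
      have hB2 : ∀ q ∈ B, q.1 < 2 ^ M ∧ q.2 < 2 ^ M := by
        intro q hq
        rw [hB, Finset.mem_product, Finset.mem_range, Finset.mem_range] at hq
        exact hq
      refine ⟨c + 2 * M + 6, B.image p, ?_, ?_, ?_⟩
      · intro i hi
        rw [Finset.mem_image] at hi
        obtain ⟨q, hq, rfl⟩ := hi
        exact Finset.mem_range.2 (hp q (hB2 q hq).1 (hB2 q hq).2).1
      · rw [Finset.card_image_of_injOn]
        · rw [hB, Finset.card_product, Finset.card_range]
          refine le_of_eq ?_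
          rw [← pow_add, ← pow_add]
          congr 1
          omega
        · intro q hq q' hq' hqq
          have e1 := (hp q (hB2 q hq).1 (hB2 q hq).2).2.1
          have e2 := (hp q' (hB2 q' hq').1 (hB2 q' hq').2).2.1
          have e3 : p q = p q' := hqq
          rw [e3] at e1
          have e4 := Part.mem_unique e1 e2
          rw [Prod.mk.injEq] at e4
          refine Prod.ext ?_ ?_ <;> omega
      · intro i hi
        rw [Finset.mem_image] at hi
        obtain ⟨q, hq, rfl⟩ := hi
        obtain ⟨e1, e2, e3⟩ := hp q (hB2 q hq).1 (hB2 q hq).2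
        have e4 : M ≤ 2 ^ M := (Nat.lt_two_pow_self).le
        refine ⟨2 ^ M + q.1, 2 ^ M + q.2, by omega, by omega, ?_, ?_⟩
        · change (2 ^ M + q.1, 2 ^ M + q.2) ∈ cond (decide (c + 2 * M + 6 ≤ c + 2 * M + 6))
            ((size (p q % 2 ^ (c + 2 * M + 6))).map fun y => (y.1 / 4, y.2 / 4)) Part.none
          rw [decide_eq_true le_rfl, cond_true, Nat.mod_eq_of_lt e1]
          have e5 := Part.mem_map (fun y : ℕ × ℕ => (y.1 / 4, y.2 / 4)) e2
          have e6 : (4 * (2 ^ M + q.1) + r / 4) / 4 = 2 ^ M + q.1 := by omega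
          have e7 : (4 * (2 ^ M + q.2) + r % 4) / 4 = 2 ^ M + q.2 := by omega
          change ((4 * (2 ^ M + q.1) + r / 4) / 4, (4 * (2 ^ M + q.2) + r % 4) / 4) ∈ _ at e5
          rw [e6, e7] at e5
          exact e5
        · refine le_trans (le_of_eq ?_) (bad_le e3)
          congr 1
          change BadP2 (fun x => cond (decide (c + 2 * M + 6 ≤ c + 2 * M + 6))
            (f (p q % 2 ^ (c + 2 * M + 6), x)) Part.none) _ _ _ _ = _
          rw [decide_eq_true le_rfl, Nat.mod_eq_of_lt e1]
          rfl)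
  exact decidable_of hS hD hD2

theorem special_stable (T : FourManifolds) (c : ℤ) : Stable (Special T c) :=
  ⟨fun h => h.1.complex, fun h => h.symm, fun hc h => special_sub hc h⟩

/-- The special pairs of some fixed Euler characteristic are not decidable. -/
theorem not_decidable (T : FourManifolds) : ∃ c, ¬ Decidable (Special T c) := by
  classical
  obtain ⟨c, g, g', Z, Z', hg, hg', h⟩ := family T
  refine ⟨c, ?_⟩
  rintro ⟨D, hD, hD2⟩
  apply Pool.Agent.Helper270.WPSource.u_not_computable
  have hsp : ∀ n, Special T c (g n) (g' n) := by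
    intro n
    obtain ⟨h1, h2, h3, h4, h5, h6, h7, h8⟩ := h n
    refine ⟨T.tri_closed h1, T.tri_closed h2, h5, Z n, Z' n, h1, h2, h3, h4, h6, ?_⟩
    by_cases h9 : (Pool.Agent.Helper270.WPSource.u n).Dom
    · exact Or.inl (h7 h9)
    · exact Or.inr (h8 h9)
  have key : ∀ n, PLHomeo (Space (g n)) (Space (g' n)) ↔
      (Pool.Agent.Helper270.WPSource.u n).Dom := by
    intro n
    obtain ⟨h1, h2, h3, h4, h5, h6, h7, h8⟩ := h n
    rw [pl_iff h1 h2]
    refine ⟨fun h1 => ?_, h7⟩
    by_contra h2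
    exact h8 h2 (FourManifolds.stably_of_eq h1)
  have hDn : ∀ n, D (g n, g' n) =
      Part.some (decide (Pool.Agent.Helper270.WPSource.u n).Dom) := by
    intro n
    obtain ⟨b, hb, hb2⟩ := hD2 _ _ (hsp n)
    rw [Part.eq_some_iff]
    rw [key n] at hb2
    have : b = decide (Pool.Agent.Helper270.WPSource.u n).Dom := by
      by_cases h1 : (Pool.Agent.Helper270.WPSource.u n).Dom
      · rw [hb2.2 h1]; simp [h1]
      · have : b ≠ true := fun hb => h1 (hb2.1 hb)
        simp only [ne_eq, Bool.not_eq_true] at this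
        simp [h1, this]
    rw [← this]
    exact hb
  have h5 : Partrec fun n => D (g n, g' n) := hD.comp (hg.pair hg')
  have h6 : Computable fun n => decide (Pool.Agent.Helper270.WPSource.u n).Dom :=
    h5.of_eq fun n => by rw [hDn n]; rfl
  exact ComputablePred.computable_iff.2 ⟨_, h6, by funext n; simp⟩

end Pool.Agent.H34.DU
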