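import Mathlib
import Pool.Graph.R_pool_sql_team_seeded_2aa45f1a.Q324.SC.TriPL
import Pool.Graph.R_pool_sql_team_seeded_63374d34.N180.UD.Defs

/-!
# Triangulated closed 4-manifolds and the classical theorems on 4-manifolds which are used

The structure `FourManifolds` lists classical objects and published theorems of the topology of
4-manifolds. It is a variant of the structure of the same name of the library
(`Pool.Agent.N180.UD.FourManifolds`), from which the presentations of groups and the property
`Lifts` are taken. Notation: `R = S^1 ×~ S^3` is the non-orientable 3-sphere bundle over the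
circle; `bd P`, for a finite presentation `P` whose relators have labels `z (r)` in `ℤ/2`, is the
boundary of the orientable 5-dimensional handlebody `N (P)` with one 0-handle, a 1-handle for each
generator and a 2-handle for each relator, such that the second Stiefel-Whitney class of `N (P)` is
the class of the cochain `z`.
-/

set_option autoImplicit false

namespace Pool.Agent.H34.DU

open Pool.Agent.Q324.SC.Tri (PLHomeo PA IsPL)
open Pool.Agent.N180.UD (Wd Pres val Lifts)

/-- The geometric realization of the complex spanned by the facets in `K`. -/
def Space (K : List (List ℕ)) : Set (ℕ → ℝ) :=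
  {x : ℕ → ℝ | ∃ σ ∈ K, (∀ i, 0 ≤ x i) ∧ (∀ i, i ∉ σ → x i = 0) ∧ ∑ i ∈ σ.toFinset, x i = 1}

/-- `K` is the list, without repetition, of the facets of a pure 4-dimensional simplicial complex
with vertex set `{0, ..., n - 1}` for some `n`; each facet is given by the increasing list of its
five vertices. -/
structure IsComplex (K : List (List ℕ)) : Prop where
  ne : K ≠ []
  nodup : K.Nodup
  increasing : ∀ s ∈ K, s.Pairwise (· < ·)
  five : ∀ s ∈ K, s.length = 5
  vertices : ∀ s ∈ K, ∀ i ∈ s, ∀ j < i, ∃ t ∈ K, j ∈ t

/-- The space `ℝ^4` (in the space of the real sequences). -/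
def Euc : Set (ℕ → ℝ) := {y | ∀ i, 4 ≤ i → y i = 0}

/-- `X` is a piecewise linear 4-manifold without boundary: each point of `X` has an open
neighbourhood in `X` that is piecewise linearly homeomorphic to an open subset of `ℝ^4`. -/
def PLManifold (X : Set (ℕ → ℝ)) : Prop :=
  ∀ x ∈ X, ∃ O O' : Set (ℕ → ℝ), IsOpen O ∧ IsOpen O' ∧ x ∈ O ∧ PLHomeo (X ∩ O) (Euc ∩ O')

/-- The complex `K` is a triangulation of a closed connected piecewise linear 4-manifold. -/
structure IsClosedManifold (K : List (List ℕ)) : Prop where
  complex : IsComplex K
  manifold : PLManifold (Space K)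
  connected : IsConnected (Space K)

/-- The classical objects and theorems. -/
structure FourManifolds where
  -- connected sums of smooth manifolds
  /-- the closed connected oriented smooth 4-manifolds, up to orientation preserving diffeomorphism -/
  M : Type
  /-- the connected sum, with neutral element `S^4` -/
  [instM : AddCommMonoid M]
  /-- the opposite orientation -/
  bar : M →+ M
  /-- the closed connected non-orientable smooth 4-manifolds, up to diffeomorphism -/
  N : Type
  /-- the connected sum `Z # X` of `Z` in `N` and `X` in `M` -/
  [instN : AddAction M N]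
  /-- in a non-orientable manifold the orientation of a summand can be reversed -/
  bar_vadd : ∀ (X : M) (Z : N), bar X +ᵥ Z = X +ᵥ Z
  /-- the orientation covering (it has an orientation reversing diffeomorphism) -/
  cov : N → M
  /-- the orientation covering of `Z # X` is the sum of that of `Z`, of `X` and of `-X` -/
  cov_vadd : ∀ (X : M) (Z : N), cov (X +ᵥ Z) = X + bar X + cov Z
  /-- the Euler characteristic -/
  chiM : M → ℤ
  chiM_add : ∀ X Y : M, chiM (X + Y) = chiM X + chiM Y - 2
  chi : N → ℤ
  chi_vadd : ∀ (X : M) (Z : N), chi (X +ᵥ Z) = chiM X + chi Z - 2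
  -- topological manifolds
  /-- the same for topological manifolds, up to homeomorphism -/
  MT : Type
  [instMT : AddCommMonoid MT]
  barT : MT → MT
  NT : Type
  [instNT : AddAction MT NT]
  barT_vadd : ∀ (X : MT) (Z : NT), barT X +ᵥ Z = X +ᵥ Z
  /-- the underlying topological manifold -/
  top : M →+ MT
  topN : N → NT
  topN_vadd : ∀ (X : M) (Z : N), topN (X +ᵥ Z) = top X +ᵥ topN Z
  -- special manifolds
  /-- the bundle `S^1 ×~ S^3` -/
  R : N
  /-- the K3 surface -/
  K3 : M
  chi_K3 : chiM K3 = 24
  /-- the product of two 2-spheres -/
  S : M
  chi_S : chiM S = 4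
  /-- the complex projective plane -/
  CP : M
  /-- the E8-manifold of Freedman -/
  E8 : MT
  /-- Freedman (1982): the K3 surface is homeomorphic to the connected sum of two copies of the
  E8-manifold (with reversed orientation) and three copies of `S^2 × S^2` -/
  freedman_K3 : top K3 = barT E8 + barT E8 + 3 • top S
  /-- Freedman (1982): `E8 # -E8` is homeomorphic to `8 (S^2 × S^2)` -/
  freedman_E8 : E8 + barT E8 = 8 • top S
  /-- Mandelbaum and Moishezon: `K3 # CP^2 = 4 CP^2 # 19 (-CP^2)` -/
  mandelbaum_moishezon : K3 + CP = 4 • CP + 19 • bar CP
  /-- Wall: `(S^2 × S^2) # CP^2 = 2 CP^2 # (-CP^2)` -/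
  wall_S : S + CP = 2 • CP + bar CP
  /-- `S^2 × S^2` has an orientation reversing diffeomorphism -/
  bar_S : bar S = S
  /-- Harer, Kas and Kirby: the K3 surface has a handle decomposition without handles of index one
  and three; therefore `K3 # -K3`, the double of the complement of a ball, is `22 (S^2 × S^2)` -/
  double_K3 : K3 + bar K3 = 22 • S
  -- boundaries of thickenings
  /-- the boundary of `N (P)` -/
  bd : Pres → M
  chi_bd : ∀ P : Pres, chiM (bd P) = 2 * (1 - P.1 + P.2.length)
  /-- Wall: surgery on a null-homotopic circle. If the word `w` is trivial in the group given by `P`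
  and all labels of `P` are zero, then the attaching circle of the additional 2-handle of the relator
  `w` with label `1` is isotopic to a trivial circle in the boundary of `N (P)`, its framing is the
  nontrivial one, and the surgery is the connected sum with the nontrivial 2-sphere bundle over the
  2-sphere, that is, with `CP^2 # (-CP^2)` -/
  wall_surgery : ∀ (P : Pres) (w : Wd), (∀ r ∈ P.2, r.2 = false) → val P w = 1 →
    bd (P.1, P.2 ++ [(w, true)]) = bd P + (CP + bar CP)
  -- triangulations
  /-- the complex `K` is a triangulation of the smooth manifold `Z`, compatible with its smooth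
  structure (the piecewise linear structures of `K` and of `Z` agree) -/
  Tri : List (List ℕ) → N → Prop
  tri_closed : ∀ {K : List (List ℕ)} {Z : N}, Tri K Z → IsClosedManifold K
  tri_inv : ∀ {K L : List (List ℕ)} {Z : N}, Tri K Z → IsClosedManifold L →
    PLHomeo (Space K) (Space L) → Tri L Z
  /-- Cairns, Hirsch, Munkres: the smooth structure of a triangulated 4-manifold is unique up to
  diffeomorphism -/
  tri_unique : ∀ {K : List (List ℕ)} {Z Z' : N}, Tri K Z → Tri K Z' → Z = Z'
  /-- Whitehead: any two triangulations of a smooth manifold are piecewise linearly homeomorphic -/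
  tri_pl : ∀ {K L : List (List ℕ)} {Z : N}, Tri K Z → Tri L Z → PLHomeo (Space K) (Space L)
  tri_top : ∀ {K L : List (List ℕ)} {Z Z' : N}, Tri K Z → Tri L Z' → topN Z = topN Z' →
    Nonempty (Space K ≃ₜ Space L)
  /-- for each `Y` in `M` there is an algorithm which computes triangulations of the manifolds
  `R # bd P # Y`, for all finite presentations `P` -/
  tri_comp : ∀ Y : M, ∃ g : Pres → List (List ℕ), Computable g ∧
    ∀ P, Tri (g P) (Y +ᵥ (bd P +ᵥ R))
  -- bordism
  /-- the group of spin bordism in dimension four -/
  Om : Type
  [instOm : AddCommGroup Om]
  /-- the signature -/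
  sgn : Om →+ ℤ
  /-- Rochlin (1952): the signature of a closed spin 4-manifold is divisible by 16 -/
  rochlin : ∀ y : Om, (16 : ℤ) ∣ sgn y
  /-- `SC X y`: the manifold `X` is simply connected and spin, with bordism class `y` -/
  SC : M → Om → Prop
  /-- the class of the K3 surface, of signature `-16` -/
  k3 : Om
  sc_K3 : SC K3 k3
  sgn_k3 : sgn k3 = -16
  /-- `S^2 × S^2` bounds the spin manifold `S^2 × D^3` -/
  sc_S : SC S 0
  sc_zero : SC 0 0
  sc_add : ∀ (X Y : M) (x y : Om), SC X x → SC Y y → SC (X + Y) (x + y)
  /-- the group of bordism of 4-manifolds with a map `c` to the circle and a spin structure on the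
  sum of the tangent bundle and `c^* γ`, where `γ` is the nontrivial line bundle (three copies of
  it) -/
  OmC : Type
  [instOmC : AddCommGroup OmC]
  /-- the class of a spin manifold with the constant map to the circle -/
  inC : Om →+ OmC
  /-- exact sequence of the circle and a point: the kernel of `inC` is generated by the differences
  `y - (-y)` of a class and the class transported around the circle -/
  inC_ker : ∀ y : Om, inC y = 0 → ∃ v : Om, y = v + v
  /-- For a presentation `P` with the property `Lifts` let `u` be a class in the second cohomology
  group of the classifying space `B (π)` of `π = Grp P`, with coefficients `ℤ/2`, whose pull-back to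
  the presentation complex is the class of the labels. This is the group of bordism of oriented
  4-manifolds `X` with a map `c` to `B (π)` and a trivialisation of `w_2 (X) + c^* u` (twisted spin
  structure). -/
  OmP : Pres → Type
  [instOmP : ∀ P, AddCommGroup (OmP P)]
  /-- the class of a spin manifold with the constant map -/
  inP : ∀ P, Om →+ OmP P
  /-- the signature is an invariant of oriented bordism (Thom, Hirzebruch) -/
  sgnP : ∀ P, OmP P →+ ℤ
  sgnP_inP : ∀ P y, sgnP P (inP P y) = sgn y
  /-- the group of bordism of 4-manifolds with such a structure over the wedge of `B (π)` and the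
  circle -/
  OmW : Pres → Type
  [instOmW : ∀ P, AddCommGroup (OmW P)]
  jP : ∀ P, OmP P →+ OmW P
  jC : ∀ P, OmC →+ OmW P
  /-- the exact sequence of Mayer and Vietoris for the wedge -/
  mayer_vietoris : ∀ P x z, jP P x + jC P z = 0 → ∃ y : Om, x = inP P y ∧ z = -inC y
  /-- the set of the bordism classes of all structures on the manifold `Z` over the wedge of `B (π)`
  and the circle, for which the map `Z → B (π) ∨ S^1` induces an isomorphism of the fundamental
  groups -/
  cls : ∀ P, N → Set (OmW P)
  /-- a simply connected spin summand: the structures on `Z # Y`, `Z = R # X`, are those on `Z`, and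
  the class is additive -/
  cls_add : ∀ P (X Y : M) (y : Om), SC Y y →
    cls P (Y +ᵥ (X +ᵥ R)) = (fun x => x + jP P (inP P y)) '' cls P (X +ᵥ R)
  /-- If `P` has the property `Lifts`, then `R # bd P` has such structures (with the identification
  of the fundamental group with `π * ℤ`); and all of them extend to the boundary sum of `N (P)` and
  the non-orientable `D^4`-bundle over the circle, because the inclusion of the boundary is
  2-connected: their classes are zero. -/
  cls_bd : ∀ P, Lifts P → cls P (bd P +ᵥ R) = {0}

attribute [instance] FourManifolds.instM FourManifolds.instN FourManifolds.instMT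
  FourManifolds.instNT FourManifolds.instOm FourManifolds.instOmC FourManifolds.instOmP
  FourManifolds.instOmW

end Pool.Agent.H34.DU
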